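import Pool.Agent.Lib.MP_8888ff_co.DenseFree
import Pool.Agent.Lib.MP_8888ff_co.RegularGirth
import Pool.Agent.Lib.MP_8888ff_co.AcyclicDegree

set_option autoImplicit false

namespace Pool.Agent.Results.MP_8888ff_co.ConnectedFamilies

open SimpleGraph Pool.Agent.Lib.MP_8888ff_co

/-- Threshold for dense graphs without small subgraphs of minimum degree at least `D`. -/
noncomputable def N0 (D s : ℕ) (hD : 2 ≤ D) : ℕ := Classical.choose (exists_dense D s hD)

/-- Number of vertices of a `d`-regular graph of girth larger than `d`. -/
noncomputable def nh (d : ℕ) (hd : 1 ≤ d) : ℕ := Classical.choose (exists_regular_girth d d hd)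

/-- The degree attached to a size. -/
noncomputable def dg (D : ℕ) (hD : 2 ≤ D) (s : ℕ) : ℕ := max (N0 D s hD) (s + 1)

lemma one_le_dg (D : ℕ) (hD : 2 ≤ D) (s : ℕ) : 1 ≤ dg D hD s := by
  have := le_max_right (N0 D s hD) (s + 1)
  unfold dg
  omega

/-- The sequence of sizes. -/
noncomputable def sz (D : ℕ) (hD : 2 ≤ D) : ℕ → ℕ
  | 0 => 2 * D
  | (j + 1) => max (nh (dg D hD (sz D hD j)) (one_le_dg D hD _)) (dg D hD (sz D hD j) + 1)

/-- The family. -/
def Fam (D : ℕ) (hD : 2 ≤ D) : Set (Σ k : ℕ, SimpleGraph (Fin k)) :=
  {p | p.2.Connected ∧ (∀ v, D ≤ (p.2.neighborSet v).ncard) ∧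
    (p.1 ≤ 2 * D ∨ ∃ j, dg D hD (sz D hD j) < p.1 ∧ p.1 ≤ sz D hD (j + 1))}

lemma sz_lt_dg (D : ℕ) (hD : 2 ≤ D) (j : ℕ) : sz D hD j < dg D hD (sz D hD j) := by
  have := le_max_right (N0 D (sz D hD j) hD) (sz D hD j + 1)
  unfold dg
  omega

lemma dg_lt_sz (D : ℕ) (hD : 2 ≤ D) (j : ℕ) : dg D hD (sz D hD j) < sz D hD (j + 1) := by
  have := le_max_right (nh (dg D hD (sz D hD j)) (one_le_dg D hD _)) (dg D hD (sz D hD j) + 1)
  rw [sz]
  omega

lemma sz_strictMono (D : ℕ) (hD : 2 ≤ D) : StrictMono (sz D hD) :=
  strictMono_nat_of_lt_succ (fun j => (sz_lt_dg D hD j).trans (dg_lt_sz D hD j))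

lemma not_acyclic (k : ℕ) (D : ℕ) (hD : 2 ≤ D) (P : SimpleGraph (Fin k)) (hc : P.Connected)
    (hdeg : ∀ v, D ≤ (P.neighborSet v).ncard) : ¬ P.IsAcyclic := by
  intro hac
  have := hc.nonempty
  obtain ⟨v, hv⟩ := exists_degree_le_one' P hac
  have := hdeg v
  omega

/-- For every integer `D ≥ 2` there is a family `F` of connected graphs, each containing a cycle and
having minimum degree at least `D`, and one of them bipartite, such that for arbitrarily large `Δ`:
some `Δ`-regular graph `G` has the property that every spanning `F`-free subgraph of `G` has a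
vertex of degree less than `D`, while some `F`-free graph on `Δ` vertices has at least
`Δ ^ (2 - 2/D) / 8` edges. -/
theorem result (D : ℕ) (hD : 2 ≤ D) :
    ∃ F : Set (Σ k : ℕ, SimpleGraph (Fin k)),
      (∀ p ∈ F, p.2.Connected ∧ ¬ p.2.IsAcyclic ∧ ∀ v, D ≤ (p.2.neighborSet v).ncard) ∧
      (∃ p ∈ F, p.2.Colorable 2) ∧
      ∀ N : ℕ, ∃ Δ : ℕ, N ≤ Δ ∧
        (∃ n : ℕ, 0 < n ∧ ∃ G : SimpleGraph (Fin n), (∀ v, (G.neighborSet v).ncard = Δ) ∧
          ∀ H : SimpleGraph (Fin n), H ≤ G → (∀ p ∈ F, ¬ p.2.IsContained H) →
            ∃ v, (H.neighborSet v).ncard < D) ∧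
        (∃ T : SimpleGraph (Fin Δ), (∀ p ∈ F, ¬ p.2.IsContained T) ∧
          (Δ : ℝ) ^ (2 - 2 / (D : ℝ)) / 8 ≤ (T.edgeSet.ncard : ℝ)) := by
  classical
  refine ⟨Fam D hD, ?_, ?_, ?_⟩
  · rintro ⟨k, P⟩ ⟨h1, h2, -⟩
    exact ⟨h1, not_acyclic k D hD P h1 h2, h2⟩
  · -- the complete bipartite graph with parts of size `D`
    have : NeZero D := ⟨by omega⟩
    let e : Fin D ⊕ Fin D ≃ Fin (2 * D) := finSumFinEquiv.trans (finCongr (by ring))
    let f : completeBipartiteGraph (Fin D) (Fin D) ≃g
        (completeBipartiteGraph (Fin D) (Fin D)).map e.toEmbedding := SimpleGraph.Iso.map e _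
    refine ⟨⟨2 * D, (completeBipartiteGraph (Fin D) (Fin D)).map e.toEmbedding⟩, ⟨?_, ?_, ?_⟩, ?_⟩
    · rw [← f.connected_iff]
      rw [SimpleGraph.connected_iff]
      refine ⟨?_, ⟨Sum.inl 0⟩⟩
      have hlr : ∀ a b : Fin D, (completeBipartiteGraph (Fin D) (Fin D)).Reachable
          (Sum.inl a) (Sum.inr b) := fun a b => Adj.reachable (by simp)
      rintro (a | a) (b | b)
      · exact (hlr a 0).trans (hlr b 0).symm
      · exact hlr a b
      · exact (hlr b a).symm
      · exact (hlr 0 a).symm.trans (hlr 0 b)
    · intro v
      have h1 : ((completeBipartiteGraph (Fin D) (Fin D)).map e.toEmbedding).neighborSet v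
          = e '' ((completeBipartiteGraph (Fin D) (Fin D)).neighborSet (e.symm v)) := by
        ext u
        have h2 := f.map_adj_iff (v := e.symm v) (w := e.symm u)
        have h3 : f (e.symm v) = v := e.apply_symm_apply v
        have h4 : f (e.symm u) = u := e.apply_symm_apply u
        rw [h3, h4] at h2
        simp only [mem_neighborSet, Set.mem_image]
        rw [h2]
        constructor
        · intro h
          exact ⟨e.symm u, h, by simp⟩
        · rintro ⟨b, hb, hu⟩
          rw [← hu, Equiv.symm_apply_apply]
          exact hb
      show D ≤ (((completeBipartiteGraph (Fin D) (Fin D)).map e.toEmbedding).neighborSet v).ncard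
      rw [h1, Set.ncard_image_of_injective _ e.injective]
      rcases e.symm v with a | a
      · have h5 : (completeBipartiteGraph (Fin D) (Fin D)).neighborSet (Sum.inl a)
            = Set.range (Sum.inr : Fin D → Fin D ⊕ Fin D) := by
          ext x
          rcases x with x | x <;> simp
        rw [h5, ← Set.image_univ, Set.ncard_image_of_injective _ Sum.inr_injective]
        simp
      · have h5 : (completeBipartiteGraph (Fin D) (Fin D)).neighborSet (Sum.inr a)
            = Set.range (Sum.inl : Fin D → Fin D ⊕ Fin D) := by
          ext x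
          rcases x with x | x <;> simp
        rw [h5, ← Set.image_univ, Set.ncard_image_of_injective _ Sum.inl_injective]
        simp
    · left
      exact le_rfl
    · have hcol : (completeBipartiteGraph (Fin D) (Fin D)).Colorable 2 := by
        have := (CompleteBipartiteGraph.bicoloring (Fin D) (Fin D)).colorable
        simpa using this
      exact hcol.of_hom f.symm.toHom
  · intro N
    let s := sz D hD N
    have hs : N ≤ s := (sz_strictMono D hD).le_apply
    let d := dg D hD s
    have hsd : s < d := sz_lt_dg D hD N
    have hds : d < sz D hD (N + 1) := dg_lt_sz D hD N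
    have hd1 : 1 ≤ d := one_le_dg D hD s
    refine ⟨d, by omega, ?_, ?_⟩
    · obtain ⟨hn, G, hG, hgirth⟩ := Classical.choose_spec (exists_regular_girth d d hd1)
      have hnle : nh d hd1 ≤ sz D hD (N + 1) := by
        rw [sz]
        exact le_max_left _ _
      refine ⟨nh d hd1, hn, G, hG, ?_⟩
      intro H hHG hfree
      by_contra hcon
      push Not at hcon
      let C := H.connectedComponentMk ⟨0, hn⟩
      let k := Fintype.card C.supp
      let e : C.supp ≃ Fin k := Fintype.equivFin _
      let f : H.induce C.supp ≃g (H.induce C.supp).map e.toEmbedding := SimpleGraph.Iso.map e _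
      have hconn : (H.induce C.supp).Connected := ConnectedComponent.connected_toSimpleGraph C
      have hdegC : ∀ v : C.supp, D ≤ ((H.induce C.supp).neighborSet v).ncard := by
        intro v
        have h1 : (H.neighborSet v.1) = Subtype.val '' ((H.induce C.supp).neighborSet v) := by
          ext u
          constructor
          · intro h
            have h' : H.Adj v.1 u := h
            have hu : u ∈ C.supp := by
              have h2 := v.2
              rw [ConnectedComponent.mem_supp_iff] at h2 ⊢
              rw [← h2]
              exact (ConnectedComponent.eq.mpr h'.reachable).symm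
            exact ⟨⟨u, hu⟩, h', rfl⟩
          · rintro ⟨y, hy, rfl⟩
            exact hy
        have h3 := hcon v.1
        rwa [h1, Set.ncard_image_of_injective _ Subtype.val_injective] at h3
      have hdegk : ∀ v, D ≤ (((H.induce C.supp).map e.toEmbedding).neighborSet v).ncard := by
        intro v
        have h1 : ((H.induce C.supp).map e.toEmbedding).neighborSet v
            = e '' ((H.induce C.supp).neighborSet (e.symm v)) := by
          ext u
          have h2 := f.map_adj_iff (v := e.symm v) (w := e.symm u)
          have h3 : f (e.symm v) = v := e.apply_symm_apply v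
          have h4 : f (e.symm u) = u := e.apply_symm_apply u
          rw [h3, h4] at h2
          simp only [mem_neighborSet, Set.mem_image]
          rw [h2]
          constructor
          · intro h
            exact ⟨e.symm u, h, by simp⟩
          · rintro ⟨b, hb, hu⟩
            rw [← hu, Equiv.symm_apply_apply]
            exact hb
        rw [h1, Set.ncard_image_of_injective _ e.injective]
        exact hdegC _
      have hconnk : ((H.induce C.supp).map e.toEmbedding).Connected := f.connected_iff.mp hconn
      have hkle : k ≤ nh d hd1 := by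
        have := Fintype.card_subtype_le (fun v => v ∈ C.supp)
        rw [Fintype.card_fin] at this
        exact this
      -- the component has more than `d` vertices
      have hkd : d < k := by
        have hnac := not_acyclic k D hD _ hconnk hdegk
        unfold IsAcyclic at hnac
        push Not at hnac
        obtain ⟨v, w, hw⟩ := hnac
        have h7 : w.length ≤ k := by
          have h8 := hw.support_nodup
          have h9 := List.Nodup.length_le_card h8
          simpa using h9
        let g1 : (H.induce C.supp).map e.toEmbedding →g G :=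
          (Hom.ofLE hHG).comp ((Embedding.induce C.supp).toHom.comp f.symm.toHom)
        have hg1 : Function.Injective g1 := by
          have : (g1 : Fin k → Fin (nh d hd1)) = fun x => ((f.symm x : C.supp) : Fin (nh d hd1)) := by
            rfl
          rw [this]
          exact Subtype.val_injective.comp f.symm.injective
        have h6 := hgirth _ (w.map g1) (hw.map hg1)
        rw [Walk.length_map] at h6
        omega
      refine hfree ⟨k, (H.induce C.supp).map e.toEmbedding⟩ ⟨hconnk, hdegk, Or.inr ⟨N, hkd, ?_⟩⟩ ?_
      · show k ≤ sz D hD (N + 1)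
        omega
      · exact ⟨⟨(Embedding.induce C.supp).toHom.comp f.symm.toHom, by
          have : (((Embedding.induce (G := H) C.supp).toHom.comp f.symm.toHom : _ →g _) :
              Fin k → Fin (nh d hd1)) = fun x => ((f.symm x : C.supp) : Fin (nh d hd1)) := by
            rfl
          rw [this]
          exact Subtype.val_injective.comp f.symm.injective⟩⟩
    · obtain ⟨T, hT1, hT2⟩ := Classical.choose_spec (exists_dense D s hD) d (le_max_left _ _)
      refine ⟨T, ?_, hT2⟩
      rintro ⟨k, P⟩ ⟨hc, hdeg, hk⟩ hcont
      have hkd : k ≤ d := by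
        obtain ⟨φ⟩ := hcont
        have := Fintype.card_le_of_injective φ φ.injective
        simpa using this
      have hk0 : 0 < k := by
        have := hc.nonempty
        have := Fintype.card_pos (α := Fin k)
        simpa using this
      have hks : k ≤ s := by
        rcases hk with hk | ⟨i, hi1, hi2⟩
        · have h1 : sz D hD 0 ≤ s := (sz_strictMono D hD).monotone (Nat.zero_le N)
          have h2 : sz D hD 0 = 2 * D := rfl
          simp only at hk
          omega
        · simp only at hi1 hi2
          have hiN : i < N := by
            by_contra hge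
            push Not at hge
            have h1 : sz D hD N ≤ sz D hD i := (sz_strictMono D hD).monotone hge
            rcases eq_or_lt_of_le hge with heq | hlt
            · subst heq
              have : d = dg D hD (sz D hD N) := rfl
              omega
            · have h2 : sz D hD (N + 1) ≤ sz D hD i := (sz_strictMono D hD).monotone hlt
              have h3 := sz_lt_dg D hD i
              omega
          have h4 : sz D hD (i + 1) ≤ sz D hD N := (sz_strictMono D hD).monotone hiN
          omega
      exact hT1 ⟨k, P⟩ hk0 hks hdeg hcont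

end Pool.Agent.Results.MP_8888ff_co.ConnectedFamilies
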