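import Mathlib
import Pool.Agent.Lib.MP_8888ff_co.RegGirth

set_option autoImplicit false

namespace Pool.Agent.Results.MP_8888ff_co.CycleFamilies

open SimpleGraph

/-- A family of finite graphs. -/
abbrev Family : Type := Set (Σ k : ℕ, SimpleGraph (Fin k))

/-- `H` is `F`-free: no subgraph of `H` is isomorphic to a member of `F`. -/
def IsFree (F : Family) {n : ℕ} (H : SimpleGraph (Fin n)) : Prop :=
  ∀ p ∈ F, ¬ p.2.IsContained H

/-- The Turan number `ex(K_n, F)`: the largest number of edges of an `F`-free graph on `n`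
vertices. -/
noncomputable def ex (n : ℕ) (F : Family) : ℕ :=
  sSup {m | ∃ T : SimpleGraph (Fin n), IsFree F T ∧ T.edgeSet.ncard = m}

/-- The minimum degree. -/
noncomputable def minDeg {n : ℕ} (G : SimpleGraph (Fin n)) : ℕ :=
  sInf (Set.range fun v => (G.neighborSet v).ncard)

/-- The maximum degree. -/
noncomputable def maxDeg {n : ℕ} (G : SimpleGraph (Fin n)) : ℕ :=
  sSup (Set.range fun v => (G.neighborSet v).ncard)

/-- `d(G, F)`: the largest minimum degree of an `F`-free spanning subgraph of `G`. -/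
noncomputable def dFree {n : ℕ} (G : SimpleGraph (Fin n)) (F : Family) : ℕ :=
  sSup {m | ∃ H : SimpleGraph (Fin n), H ≤ G ∧ IsFree F H ∧ minDeg H = m}

/-- `h(δ, Δ, F)`: the minimum of `d(G, F)` over all graphs `G` with at least one vertex, minimum
degree `δ` and maximum degree `Δ`. -/
noncomputable def h (δ Δ : ℕ) (F : Family) : ℕ :=
  sInf {m | ∃ n : ℕ, 0 < n ∧ ∃ G : SimpleGraph (Fin n),
    minDeg G = δ ∧ maxDeg G = Δ ∧ dFree G F = m}

/-- The family of the cycles `C_l`, `l ∈ L`. -/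
def cycles (L : Set ℕ) : Family := {p | ∃ l ∈ L, p = ⟨l, cycleGraph l⟩}

open Pool.Agent.Lib.MP_8888ff_co Pool.Agent.Lib.MP_8888ff_co.RegGirth

lemma isFree_iff (L : Set ℕ) (hL : ∀ l ∈ L, 2 < l) {n : ℕ} (H : SimpleGraph (Fin n)) :
    IsFree (cycles L) H ↔ ∀ (a : Fin n) (c : H.Walk a a), c.IsCycle → c.length ∉ L := by
  constructor
  · intro hf a c hc hl
    refine hf ⟨c.length, cycleGraph c.length⟩ ⟨c.length, hl, rfl⟩ ?_
    exact (cycleGraph_isContained_iff (hL _ hl)).mpr ⟨a, c, hc, rfl⟩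
  · rintro hf p ⟨l, hl, rfl⟩ hc
    obtain ⟨a, c, hc, hlen⟩ := (cycleGraph_isContained_iff (hL _ hl)).mp hc
    exact hf a c hc (hlen ▸ hl)

lemma exists_step (k N : ℕ) : ∃ (d n : ℕ) (G : SimpleGraph (Fin n)) (T : SimpleGraph (Fin d)),
    1 ≤ d ∧ 0 < n ∧ (∀ v, (G.neighborSet v).ncard = d) ∧
    (∀ (a : Fin n) (c : G.Walk a a), c.IsCycle → max d N < c.length ∧ Even c.length) ∧
    (∀ (a : Fin d) (c : T.Walk a a), c.IsCycle → N < c.length) ∧
    k * d ≤ T.edgeSet.ncard := by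
  obtain ⟨m, T, hm, hT1, hT2⟩ := exists_regular (2 * k) N
  obtain ⟨n, G, hn, hG1, hG2⟩ := exists_regular m (max m N)
  exact ⟨m, n, G, T, hm, hn, hG1, hG2, fun a c hc => (hT2 a c hc).1,
    (edges_of_regular k m T hT1).ge⟩

/-- The degree chosen for the parameters `k`, `N`. -/
noncomputable def dd (k N : ℕ) : ℕ := (exists_step k N).choose

/-- The order of the host chosen for the parameters `k`, `N`. -/
noncomputable def nn (k N : ℕ) : ℕ := (exists_step k N).choose_spec.choose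

lemma step_spec (k N : ℕ) : ∃ (G : SimpleGraph (Fin (nn k N))) (T : SimpleGraph (Fin (dd k N))),
    1 ≤ dd k N ∧ 0 < nn k N ∧ (∀ v, (G.neighborSet v).ncard = dd k N) ∧
    (∀ (a : Fin (nn k N)) (c : G.Walk a a), c.IsCycle → max (dd k N) N < c.length ∧
      Even c.length) ∧
    (∀ (a : Fin (dd k N)) (c : T.Walk a a), c.IsCycle → N < c.length) ∧
    k * dd k N ≤ T.edgeSet.ncard :=
  (exists_step k N).choose_spec.choose_spec

/-- The sequence of orders. -/
noncomputable def sq : ℕ → ℕ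
  | 0 => 4
  | (j + 1) => max (nn (j + 1) (sq j)) (sq j)

lemma sq_mono : Monotone sq := by
  apply monotone_nat_of_le_succ
  intro j
  exact le_max_right _ _

lemma nn_le_sq (j : ℕ) : nn (j + 1) (sq j) ≤ sq (j + 1) := le_max_left _ _

/-- The set of lengths. -/
noncomputable def LL : Set ℕ :=
  {l | l = 4 ∨ ∃ j, Even l ∧ max (dd (j + 1) (sq j)) (sq j) < l ∧ l ≤ nn (j + 1) (sq j)}

lemma four_le_sq (j : ℕ) : 4 ≤ sq j := sq_mono (Nat.zero_le j)

lemma LL_spec (l : ℕ) (hl : l ∈ LL) : Even l ∧ 4 ≤ l := by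
  rcases hl with rfl | ⟨j, h1, h2, h3⟩
  · exact ⟨by decide, le_rfl⟩
  · have := four_le_sq j
    have := le_max_right (dd (j + 1) (sq j)) (sq j)
    exact ⟨h1, by omega⟩

/-- `L` lies between the part of `LL` up to the order of the `j`-th host and `LL`. -/
def Good (j : ℕ) (L : Set ℕ) : Prop := L ⊆ LL ∧ ∀ l ∈ LL, l ≤ nn (j + 1) (sq j) → l ∈ L

lemma host (j : ℕ) (L : Set ℕ) (hL : Good j L) :
    h (dd (j + 1) (sq j)) (dd (j + 1) (sq j)) (cycles L) ≤ 1 := by
  obtain ⟨G, T, hd, hn, hG1, hG2, hT1, hT2⟩ := step_spec (j + 1) (sq j)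
  have hne : Nonempty (Fin (nn (j + 1) (sq j))) := ⟨⟨0, hn⟩⟩
  have hfun : (fun v => (G.neighborSet v).ncard) = fun _ => dd (j + 1) (sq j) := funext hG1
  have hmin : minDeg G = dd (j + 1) (sq j) := by
    unfold minDeg
    rw [hfun, Set.range_const]
    simp
  have hmax : maxDeg G = dd (j + 1) (sq j) := by
    unfold maxDeg
    rw [hfun, Set.range_const]
    simp
  have hdf : dFree G (cycles L) ≤ 1 := by
    unfold dFree
    apply csSup_le'
    rintro m ⟨H, hHG, hHf, rfl⟩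
    have hac : H.IsAcyclic := by
      intro a c hc
      rw [isFree_iff L (fun l hl => by have := (LL_spec l (hL.1 hl)).2; omega)] at hHf
      apply hHf a c hc
      have hc' : (c.mapLe hHG).IsCycle := (Walk.mapLe_isCycle hHG).mpr hc
      have h1 := hG2 a (c.mapLe hHG) hc'
      have hlen : (c.mapLe hHG).length = c.length := by simp
      rw [hlen] at h1
      have hle : c.length ≤ nn (j + 1) (sq j) := by
        have h8 := hc.support_nodup
        have h9 := List.Nodup.length_le_card h8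
        simpa using h9
      exact hL.2 _ (Or.inr ⟨j, h1.2, h1.1, hle⟩) hle
    obtain ⟨v, hv⟩ := exists_degree_le_one H hac
    have hv2 : (H.neighborSet v).ncard ∈ Set.range fun v => (H.neighborSet v).ncard := ⟨v, rfl⟩
    exact (Nat.sInf_le hv2).trans hv
  have hmem : dFree G (cycles L) ∈ {m | ∃ n : ℕ, 0 < n ∧ ∃ G : SimpleGraph (Fin n),
      minDeg G = dd (j + 1) (sq j) ∧ maxDeg G = dd (j + 1) (sq j) ∧
      dFree G (cycles L) = m} := ⟨_, hn, G, hmin, hmax, rfl⟩
  exact (Nat.sInf_le hmem).trans hdf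

lemma turan (j : ℕ) (L : Set ℕ) (hL : L ⊆ LL) :
    (j + 1) * dd (j + 1) (sq j) ≤ ex (dd (j + 1) (sq j)) (cycles L) := by
  obtain ⟨G, T, hd, hn, hG1, hG2, hT1, hT2⟩ := step_spec (j + 1) (sq j)
  refine hT2.trans (le_csSup ?_ ⟨T, ?_, rfl⟩)
  · have hfin : {m | ∃ T : SimpleGraph (Fin (dd (j + 1) (sq j))),
        IsFree (cycles L) T ∧ T.edgeSet.ncard = m}.Finite := by
      apply (Set.finite_range (fun T : SimpleGraph (Fin (dd (j + 1) (sq j))) =>
        T.edgeSet.ncard)).subset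
      rintro m ⟨T, -, rfl⟩
      exact ⟨T, rfl⟩
    exact hfin.bddAbove
  · rw [isFree_iff L (fun l hl => by have := (LL_spec l (hL hl)).2; omega)]
    intro a c hc hl
    have h1 := hT1 a c hc
    have h2 : c.length ≤ dd (j + 1) (sq j) := by
      have h8 := hc.support_nodup
      have h9 := List.Nodup.length_le_card h8
      simpa using h9
    rcases hL hl with h4 | ⟨i, -, hi1, hi2⟩
    · have := four_le_sq j
      omega
    · rcases Nat.lt_or_ge i j with hij | hij
      · have h5 := nn_le_sq i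
        have h6 : sq (i + 1) ≤ sq j := sq_mono hij
        omega
      · rcases eq_or_lt_of_le hij with rfl | hij
        · have := le_max_left (dd (j + 1) (sq j)) (sq j)
          omega
        · have h5 := nn_le_sq j
          have h6 : sq (j + 1) ≤ sq i := sq_mono hij
          have h7 := le_max_right (dd (i + 1) (sq i)) (sq i)
          have h8 : dd (j + 1) (sq j) ≤ nn (j + 1) (sq j) := by
            rw [← hG1 ⟨0, hn⟩]
            refine (Set.ncard_le_card _).trans ?_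
            simp
          omega

lemma one_le_dFree (L : Set ℕ) (hL : ∀ l ∈ L, 2 < l) {n : ℕ} (hn : 0 < n)
    (G : SimpleGraph (Fin n)) (hG : 1 ≤ minDeg G) : 1 ≤ dFree G (cycles L) := by
  obtain ⟨T, hTG, hT, hr⟩ := G.exists_isAcyclic_reachable_eq_le
  have hfree : IsFree (cycles L) T := by
    rw [isFree_iff L hL]
    intro a c hc
    exact absurd hc (hT c)
  have hbdd : BddAbove {m | ∃ H : SimpleGraph (Fin n), H ≤ G ∧ IsFree (cycles L) H ∧
      minDeg H = m} := by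
    have hfin : {m | ∃ H : SimpleGraph (Fin n), H ≤ G ∧ IsFree (cycles L) H ∧
        minDeg H = m}.Finite := by
      apply (Set.finite_range (fun H : SimpleGraph (Fin n) => minDeg H)).subset
      rintro m ⟨H, -, -, rfl⟩
      exact ⟨H, rfl⟩
    exact hfin.bddAbove
  refine le_trans ?_ (le_csSup hbdd ⟨T, hTG, hfree, rfl⟩)
  have hne : (Set.range fun v => (T.neighborSet v).ncard).Nonempty := ⟨_, ⟨0, hn⟩, rfl⟩
  obtain ⟨v, hv⟩ := Nat.sInf_mem hne
  have hv' : (T.neighborSet v).ncard = minDeg T := hv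
  rw [← hv']
  have h1 : 1 ≤ (G.neighborSet v).ncard := hG.trans (Nat.sInf_le ⟨v, rfl⟩)
  obtain ⟨u, hu⟩ : (G.neighborSet v).Nonempty := by
    rw [← Set.ncard_pos (Set.toFinite _)]
    exact h1
  have hadj : G.Adj v u := hu
  have hreach : T.Reachable v u := by
    rw [hr]
    exact hadj.reachable
  obtain ⟨p⟩ := hreach
  cases p with
  | nil => exact absurd hadj (G.irrefl)
  | @cons _ w _ h q =>
    rw [Nat.one_le_iff_ne_zero]
    intro h0
    rw [Set.ncard_eq_zero (Set.toFinite _)] at h0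
    have : w ∈ T.neighborSet v := h
    rw [h0] at this
    exact this

lemma host_eq (j : ℕ) (L : Set ℕ) (hL : Good j L) :
    h (dd (j + 1) (sq j)) (dd (j + 1) (sq j)) (cycles L) = 1 := by
  apply le_antisymm (host j L hL)
  obtain ⟨G, T, hd, hn, hG1, hG2, hT1, hT2⟩ := step_spec (j + 1) (sq j)
  have hne : Nonempty (Fin (nn (j + 1) (sq j))) := ⟨⟨0, hn⟩⟩
  have hfun : (fun v => (G.neighborSet v).ncard) = fun _ => dd (j + 1) (sq j) := funext hG1
  have hmin : minDeg G = dd (j + 1) (sq j) := by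
    unfold minDeg
    rw [hfun, Set.range_const]
    simp
  have hmax : maxDeg G = dd (j + 1) (sq j) := by
    unfold maxDeg
    rw [hfun, Set.range_const]
    simp
  have hset : {m | ∃ n : ℕ, 0 < n ∧ ∃ G : SimpleGraph (Fin n),
      minDeg G = dd (j + 1) (sq j) ∧ maxDeg G = dd (j + 1) (sq j) ∧
      dFree G (cycles L) = m}.Nonempty := ⟨_, _, hn, G, hmin, hmax, rfl⟩
  obtain ⟨n, hn', G', h1, h2, h3⟩ := Nat.sInf_mem hset
  unfold h
  rw [← h3]
  exact one_le_dFree L (fun l hl => by have := (LL_spec l (hL.1 hl)).2; omega) hn' G' (by omega)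

lemma main (c : ℝ) (hc : 0 < c) : ∃ j : ℕ, 1 ≤ dd (j + 1) (sq j) ∧ ∀ L : Set ℕ, Good j L →
    h (dd (j + 1) (sq j)) (dd (j + 1) (sq j)) (cycles L) = 1 ∧
    (h (dd (j + 1) (sq j)) (dd (j + 1) (sq j)) (cycles L) : ℝ) <
      c * ((ex (dd (j + 1) (sq j)) (cycles L) : ℝ) * (dd (j + 1) (sq j) : ℝ) /
        (dd (j + 1) (sq j) : ℝ) ^ 2) := by
  obtain ⟨j, hj⟩ := exists_nat_gt (1 / c)
  obtain ⟨-, -, hd, -⟩ := step_spec (j + 1) (sq j)
  refine ⟨j, hd, fun L hL => ?_⟩
  refine ⟨host_eq j L hL, ?_⟩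
  rw [host_eq j L hL]
  have hd' : (0 : ℝ) < (dd (j + 1) (sq j) : ℝ) := by exact_mod_cast hd
  have ht : ((j : ℝ) + 1) * (dd (j + 1) (sq j) : ℝ) ≤ (ex (dd (j + 1) (sq j)) (cycles L) : ℝ) := by
    exact_mod_cast turan j L hL.1
  have h1 : (j : ℝ) + 1 ≤ (ex (dd (j + 1) (sq j)) (cycles L) : ℝ) * (dd (j + 1) (sq j) : ℝ) /
      (dd (j + 1) (sq j) : ℝ) ^ 2 := by
    rw [le_div_iff₀ (by positivity)]
    calc ((j : ℝ) + 1) * (dd (j + 1) (sq j) : ℝ) ^ 2
        = (((j : ℝ) + 1) * (dd (j + 1) (sq j) : ℝ)) * (dd (j + 1) (sq j) : ℝ) := by ring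
      _ ≤ _ := by gcongr
  rw [div_lt_iff₀ hc] at hj
  push_cast
  calc (1 : ℝ) < j * c := hj
    _ ≤ c * ((j : ℝ) + 1) := by nlinarith
    _ ≤ _ := by gcongr

/-- There is a set `L` of even integers, `4 ∈ L`, such that for every `c > 0` there are `Δ ≥ 1` and
`N` for which the inequality of Q1 with constant `c` fails at `δ = Δ` for the family of cycles
`C_l`, `l ∈ M`, whenever `M ⊆ L` contains all elements of `L` up to `N` (in particular for `M = L`
and for the finite set `M` of the elements of `L` up to `N`). -/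
theorem result : ∃ L : Set ℕ, 4 ∈ L ∧ (∀ l ∈ L, Even l ∧ 4 ≤ l) ∧
    ∀ c : ℝ, 0 < c → ∃ Δ N : ℕ, 1 ≤ Δ ∧
      ∀ M : Set ℕ, M ⊆ L → (∀ l ∈ L, l ≤ N → l ∈ M) →
        h Δ Δ (cycles M) = 1 ∧
        (h Δ Δ (cycles M) : ℝ) < c * ((ex Δ (cycles M) : ℝ) * (Δ : ℝ) / (Δ : ℝ) ^ 2) := by
  refine ⟨LL, Or.inl rfl, LL_spec, fun c hc => ?_⟩
  obtain ⟨j, hj⟩ := main c hc
  exact ⟨dd (j + 1) (sq j), nn (j + 1) (sq j), hj.1, fun M h1 h2 => hj.2 M ⟨h1, h2⟩⟩

end Pool.Agent.Results.MP_8888ff_co.CycleFamilies
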